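import Mathlib
import Pool.Agent.N485.BT.Supra

/-! # MP_b0184e_gt: coarsely embedded binary trees, quasi-isometrically embedded binary trees and
supramenability

The vertices of the binary tree are the lists of booleans, `tdist` is its path metric.

1. For every proper geodesic metric space `X` with a cocompact isometry group (of any growth) the
   following are equivalent: there is a coarse embedding of the binary tree into `X`; there is a
   quasi-isometric embedding; there is a regular map (Lipschitz, with a bounded number of vertices
   over each ball of radius one); there is a nonempty subset `A` of bounded geometry that is
   paradoxical, that is, there are two injections `A → A` with disjoint ranges which move the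
   points by a bounded distance.
2. For every group `G` generated by a finite set `S`, with the word metric, the first three
   properties are equivalent, and they hold if and only if `G` is not supramenable (some nonempty
   subset is equidecomposable, by right translations, with two disjoint subsets of itself).
   So Q1 for finitely generated groups is the question whether supramenable finitely generated
   groups have subexponential growth.
3. In particular every finitely generated group with two elements `a`, `b` that generate freely a
   free subsemigroup contains a quasi-isometrically embedded binary tree. The subsemigroup may be
   distorted.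

Proof of the main step (regular map `f` gives a quasi-isometric embedding `f ∘ g`): pass to the tree
in which every vertex has `2 * 4096` children. A pair of vertices at distance `n` is bad if their
images are at distance at most `ε n`. There are at most `K 2^n` bad partners of a vertex at
distance `n`; as one of the two end points of a path of length `n` through a given edge is at distance
at most `n / 2` from the edge, there are few bad pairs of size `n` through an edge. A counting
argument (Rosenfeld's form of the local lemma) shows that one can choose two children of every vertex
such that no bad pair at distance at least `n0` survives. -/

set_option autoImplicit false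

namespace Pool.Agent.Results.MP_b0184e_gt.TreesAndSupramenability

open Pool.Agent.N485.BT

theorem result :
    (∀ (X : Type) [MetricSpace X] [ProperSpace X],
      (∀ x y : X, ∃ γ : ℝ → X, γ 0 = x ∧ γ (dist x y) = y ∧
        ∀ s ∈ Set.Icc (0 : ℝ) (dist x y), ∀ t ∈ Set.Icc (0 : ℝ) (dist x y),
          dist (γ s) (γ t) = |s - t|) →
      (∃ K : Set X, IsCompact K ∧ ∀ x : X, ∃ g : X ≃ᵢ X, g x ∈ K) →
      List.TFAE [∃ f : List Bool → X, CoarseEmb (fun x y => dist x y) f,
        ∃ f : List Bool → X, QIEmb (fun x y => dist x y) f,
        ∃ f : List Bool → X, RegularMap (fun x y => dist x y) f,
        ∃ A : Set X, A.Nonempty ∧ LocFin (fun x y => dist x y) A ∧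
          BddParadoxical (fun x y => dist x y) A]) ∧
    (∀ (G : Type) [Group G] (S : Finset G), Subgroup.closure (S : Set G) = ⊤ →
      List.TFAE [∃ f : List Bool → G, CoarseEmb (wordDist S) f,
        ∃ f : List Bool → G, QIEmb (wordDist S) f,
        ∃ f : List Bool → G, RegularMap (wordDist S) f,
        ¬ Supramenable G]) ∧
    (∀ (G : Type) [Group G] (S : Finset G), Subgroup.closure (S : Set G) = ⊤ →
      ∀ a b : G, Function.Injective (fun l : List Bool => (l.map (fun x => cond x a b)).prod) →
        ∃ f : List Bool → G, QIEmb (wordDist S) f) := by
  refine ⟨?_, ?_, ?_⟩
  · intro X _ _ hgeo hco
    exact tfae_of_cov4 (fun x y : X => dist x y) dist_self dist_comm dist_triangle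
      (cov_metric X hgeo hco)
  · intro G _ S hS
    exact tfae_word4 S hS
  · intro G _ S hS a b hfree
    exact qi_of_free S hS a b hfree

end Pool.Agent.Results.MP_b0184e_gt.TreesAndSupramenability
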